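import Pool.Agent.P.HB.RMain

open Filter Topology Pool.Agent.HB

namespace Pool.Agent.Results.MP_6d173c_pr.FiniteRule

/-- The exponent of the critical probability of `H`-bootstrap percolation exists and is located by
a finite rule on graphs with `k` vertices up to a factor `1 + 2 e(H) / (k - v(H))`. -/
theorem result {W : Type} [Fintype W] (H : SimpleGraph W) (h2 : 2 ≤ H.edgeSet.ncard) :
    ∃ γ : ℝ, Tendsto (expo H) atTop (𝓝 (-γ)) ∧ ∀ (β : ℝ) (k : ℕ), 0 < β →
      (Feasible H β k → β ≤ γ) ∧
      (¬ Feasible H β k → Fintype.card W < k →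
        γ ≤ β * (1 + 2 * H.edgeSet.ncard / ((k : ℝ) - Fintype.card W))) := rule_main H h2

end Pool.Agent.Results.MP_6d173c_pr.FiniteRule
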