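import Pool.Agent.P.HI.I10

open Filter Topology Pool.Agent.HB

namespace Pool.Agent.Results.MP_6d173c_pr.Irrational

/-- There is a finite connected graph `H` for which `log p_c(n,H) / log n` tends to an irrational
number. -/
theorem result : ∃ (k : ℕ) (H : SimpleGraph (Fin k)) (x : ℝ), H.Connected ∧ Irrational x ∧
    Tendsto (expo H) atTop (𝓝 x) := Pool.Agent.HI.main_conn

end Pool.Agent.Results.MP_6d173c_pr.Irrational
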