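import Pool.Agent.P.MP_6d173c_pr.Main

set_option autoImplicit false

namespace Pool.Agent.Results.MP_6d173c_pr.K2t

open Pool.Agent.BP

/-- The critical exponent of `K_{2,t}`-bootstrap percolation, for every `t ≥ 4`. -/
theorem result : ∀ t : ℕ, 4 ≤ t →
    Filter.Tendsto
      (fun n : ℕ => Real.log (critProb (completeBipartiteGraph (Fin 2) (Fin t)) n) / Real.log n)
      Filter.atTop
      (nhds (if Odd t then -(((t : ℝ) ^ 2 - t + 2) / (2 * ((t : ℝ) - 1) ^ 2))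
        else -((2 * (t : ℝ) ^ 2 - 5 * t + 8) / (4 * (t : ℝ) ^ 2 - 14 * t + 18)))) := by
  intro t ht
  obtain ⟨s, rfl⟩ : ∃ s, t = s + 1 := ⟨t - 1, by omega⟩
  have h := main (s := s) (by omega)
  have e : (if Odd (s + 1) then -((((s + 1 : ℕ) : ℝ) ^ 2 - (s + 1 : ℕ) + 2) /
        (2 * (((s + 1 : ℕ) : ℝ) - 1) ^ 2))
      else -((2 * ((s + 1 : ℕ) : ℝ) ^ 2 - 5 * (s + 1 : ℕ) + 8) /
        (4 * ((s + 1 : ℕ) : ℝ) ^ 2 - 14 * (s + 1 : ℕ) + 18))) = -(1 / rhoK s) := by
    unfold rhoK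
    by_cases hs : Even s
    · rw [if_pos hs.add_one, if_pos hs, one_div_div]
      push_cast
      ring
    · rw [if_neg (by simpa [Nat.odd_add_one] using hs), if_neg hs, one_div_div]
      push_cast
      ring
  rw [e]
  exact h

end Pool.Agent.Results.MP_6d173c_pr.K2t
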