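import Pool.Agent.P.HB.Conn3

open Filter Topology Pool.Agent.HB

namespace Pool.Agent.Results.MP_6d173c_pr.Status

/-- The limit of `log p_c(n,H) / log n` exists, a primitive recursive function of `H` computes it
to any precision, and no algorithm compares it exactly with a fixed rational number, even for
connected `H`. -/
theorem result : ∃ L : ℕ × List (ℕ × ℕ) → ℝ,
    (∀ c, 2 ≤ (codeGraph c).edgeSet.ncard → Tendsto (expo (codeGraph c)) atTop (𝓝 (L c))) ∧
    (∃ f : (ℕ × List (ℕ × ℕ)) × ℕ → ℕ, Primrec f ∧ ∀ (c : ℕ × List (ℕ × ℕ)) (j : ℕ),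
      2 ≤ (codeGraph c).edgeSet.ncard → |L c + (f (c, j) : ℝ) / (j + 1)| ≤ 1 / (j + 1)) ∧
    ∃ a : ℚ, ∀ v : ℕ × List (ℕ × ℕ) → ℝ,
      (∀ c, (codeGraph c).Connected → 2 ≤ (codeGraph c).edgeSet.ncard → v c = L c) →
        ¬ REPred fun c => (a : ℝ) ≤ v c := by
  have h1 : ∀ c : ℕ × List (ℕ × ℕ), ∃ x : ℝ, 2 ≤ (codeGraph c).edgeSet.ncard →
      Tendsto (expo (codeGraph c)) atTop (𝓝 x) := by
    intro c
    by_cases h : 2 ≤ (codeGraph c).edgeSet.ncard
    · obtain ⟨γ, h2, -⟩ := rule_main (codeGraph c) h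
      exact ⟨-γ, fun _ => h2⟩
    · exact ⟨0, fun h' => absurd h' h⟩
  choose L hL using h1
  refine ⟨L, hL, ⟨approx, approx_primrec, fun c j h => ?_⟩, ?_⟩
  · have h2 := approx_spec c h (γ := -L c) (by rw [neg_neg]; exact hL c h) j
    rwa [← neg_add', abs_neg] at h2
  · obtain ⟨a, ha⟩ := main_conn
    refine ⟨a, fun v hv h => ha (fun c => (v c : EReal)) (fun c hn hc => ?_)
      (h.of_eq fun c => EReal.coe_le_coe_iff.symm)⟩
    have h2 : Tendsto (fun n => (expo (codeGraph c) n : EReal)) atTop (𝓝 (v c : EReal)) := by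
      rw [hv c hn hc]
      exact (continuous_coe_real_ereal.tendsto _).comp (hL c hc)
    exact ⟨h2.liminf_eq.le, h2.limsup_eq.ge⟩

end Pool.Agent.Results.MP_6d173c_pr.Status
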